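import Pool.Agent.Helper37.KDB.Extra
import Pool.Agent.Helper37.KDB.St.L3

/-! Project KDB, piece L4: counting lost levels. -/

set_option autoImplicit false

namespace KDB.I.L4

open MeasureTheory
open scoped ENNReal

variable (p : Par)

theorem sz_nonneg (hp : p.Ok) (z : Nz p.d) : 0 ≤ p.sz z := by
  unfold Par.sz
  split_ifs
  · exact le_rfl
  · exact norm_nonneg _
  · have : 0 ≤ p.rho (z.lab - 1) := by unfold Par.rho; positivity
    positivity

theorem rho_nonneg (k : ℕ) : 0 ≤ p.rho k := by unfold Par.rho; positivity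

/-- exchange of sums for the velocity digits -/
theorem sum_c1 (om : ℕ → Nz p.d) (t : ℕ) (S : Finset ℕ) :
    ∑ i ∈ S, ((Finset.range t).filter fun j => p.mst t j ≤ i ∧
        ((om j).lab = 1 ∧ i < p.lv (om j) ∨ 2 ≤ (om j).lab ∧ i + p.b < p.lv (om j) - 1)).card ≤
      p.Yf om t := by
  have h1 : ∀ i ∈ S, ((Finset.range t).filter fun j => p.mst t j ≤ i ∧
        ((om j).lab = 1 ∧ i < p.lv (om j) ∨ 2 ≤ (om j).lab ∧ i + p.b < p.lv (om j) - 1)).card =
      ∑ j ∈ Finset.range t, if p.mst t j ≤ i ∧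
        ((om j).lab = 1 ∧ i < p.lv (om j) ∨ 2 ≤ (om j).lab ∧ i + p.b < p.lv (om j) - 1)
        then 1 else 0 := fun i _ => Finset.card_filter _ _
  rw [Finset.sum_congr rfl h1, Finset.sum_comm]
  unfold Par.Yf
  apply Finset.sum_le_sum
  intro j _
  rw [← Finset.card_filter]
  by_cases hl : (om j).lab = 1
  · rw [if_pos hl]
    calc (S.filter fun i => p.mst t j ≤ i ∧ ((om j).lab = 1 ∧ i < p.lv (om j) ∨
          2 ≤ (om j).lab ∧ i + p.b < p.lv (om j) - 1)).card
        ≤ (Finset.Ico (p.mst t j) (p.lv (om j))).card := by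
          apply Finset.card_le_card
          intro i hi
          rw [Finset.mem_filter] at hi
          rw [Finset.mem_Ico]
          rcases hi.2.2 with h | h
          · exact ⟨hi.2.1, h.2⟩
          · omega
      _ = _ := Nat.card_Ico _ _
  · rw [if_neg hl]
    calc (S.filter fun i => p.mst t j ≤ i ∧ ((om j).lab = 1 ∧ i < p.lv (om j) ∨
          2 ≤ (om j).lab ∧ i + p.b < p.lv (om j) - 1)).card
        ≤ (Finset.Ico (p.mst t j) (p.lv (om j) - 1 - p.b)).card := by
          apply Finset.card_le_card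
          intro i hi
          rw [Finset.mem_filter] at hi
          rw [Finset.mem_Ico]
          rcases hi.2.2 with h | h
          · exact absurd h.1 hl
          · exact ⟨hi.2.1, by omega⟩
      _ = _ := Nat.card_Ico _ _

/-- exchange of sums for the own rings -/
theorem sum_c4 (om : ℕ → Nz p.d) (t : ℕ) (S : Finset ℕ) :
    ∑ i ∈ S, ((Finset.range t).filter fun j => p.mst t j ≤ i ∧ (om j).lab = i + 2).card ≤
      p.nuf om t := by
  have h1 : ∀ i ∈ S, ((Finset.range t).filter fun j => p.mst t j ≤ i ∧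
        (om j).lab = i + 2).card =
      ∑ j ∈ Finset.range t, if p.mst t j ≤ i ∧ (om j).lab = i + 2 then 1 else 0 :=
    fun i _ => Finset.card_filter _ _
  rw [Finset.sum_congr rfl h1, Finset.sum_comm]
  unfold Par.nuf
  rw [Finset.card_filter]
  apply Finset.sum_le_sum
  intro j _
  rw [← Finset.card_filter]
  by_cases hl : p.mst t j < p.lv (om j)
  · rw [if_pos hl]
    apply Finset.card_le_one.2
    intro a ha b hb
    rw [Finset.mem_filter] at ha hb
    omega
  · rw [if_neg hl]
    apply le_of_eq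
    rw [Finset.card_eq_zero, Finset.filter_eq_empty_iff]
    rintro i _ ⟨h2, h3⟩
    apply hl
    have : p.lv (om j) = i + 1 := by
      unfold Par.lv
      rw [if_neg (by omega), if_neg (by omega)]
      omega
    omega

/-- exchange of sums for the noise -/
theorem sum_c3 (hp : p.Ok) (om : ℕ → Nz p.d) (t : ℕ) {S : Finset ℕ} (hS : S ⊆ Finset.range p.n) :
    ∑ i ∈ S, (∑ j ∈ Finset.range t, if p.mst t j ≤ i ∧ p.lv (om j) ≤ i then
        p.sz (om j) / p.rho i else 0) ≤ p.Nf om t := by
  rw [Finset.sum_comm]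
  unfold Par.Nf
  apply Finset.sum_le_sum
  intro j _
  apply Finset.sum_le_sum_of_subset_of_nonneg hS
  intro i _ _
  split_ifs
  · exact div_nonneg (sz_nonneg p hp _) (rho_nonneg p i)
  · exact le_rfl

/-- counting lost levels -/
theorem lost_le (hp : p.Ok) (om : ℕ → Nz p.d) (hv : ∀ j, p.Valid j (om j)) (t : ℕ)
    (ht : t ≤ p.tau p.n) :
    48 * (p.lostf t (p.cho om t) : ℝ) ≤ p.Yf om t + p.failf om t + p.Nf om t / p.R +
      p.nuf om t / p.q := by
  set S : Finset ℕ :=
    (Finset.range p.n).filter fun i => MM * p.tau (i + 1) ≤ t ∧ p.cho om t i = 0 with hS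
  have hSn : S ⊆ Finset.range p.n := Finset.filter_subset _ _
  have hR : (0 : ℝ) < p.R := lt_of_lt_of_le one_pos hp.hR
  have hq : (0 : ℝ) < p.q := by exact_mod_cast hp.hq
  have hsum := Finset.sum_le_sum (fun i (hi : i ∈ S) => by
    rw [hS, Finset.mem_filter, Finset.mem_range] at hi
    exact lost_level p hp om hv t i hi.1 hi.2.1 hi.2.2)
  rw [Finset.sum_const, nsmul_eq_mul, Finset.sum_add_distrib, Finset.sum_add_distrib,
    Finset.sum_add_distrib, ← Finset.sum_div, ← Finset.sum_div] at hsum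
  have e1 := sum_c1 p om t S
  have e4 := sum_c4 p om t S
  have e3 := sum_c3 p hp om t hSn
  have e1' : (∑ i ∈ S, (((Finset.range t).filter fun j => p.mst t j ≤ i ∧
        ((om j).lab = 1 ∧ i < p.lv (om j) ∨ 2 ≤ (om j).lab ∧
          i + p.b < p.lv (om j) - 1)).card : ℝ)) ≤ p.Yf om t := by exact_mod_cast e1
  have e4' : (∑ i ∈ S, (((Finset.range t).filter fun j => p.mst t j ≤ i ∧
        (om j).lab = i + 2).card : ℝ)) ≤ p.nuf om t := by exact_mod_cast e4
  have e2 : (∑ i ∈ S, (∑ a ∈ Finset.Icc 1 49, ((open Classical in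
        (if ∃ j ∈ Finset.Ico (p.cand t i a - p.tau i) (p.cand t i a - p.tau i + p.W i),
          (om j).lab = i + 2 ∧ (om j).sb = true then 0 else 1) +
        (if ∃ j ∈ Finset.Ico (p.cand t i a) (p.cand t i a + p.W i),
          (om j).lab = i + 2 ∧ (om j).sb = true then 0 else 1) : ℕ) : ℝ))) ≤
      p.failf om t := by
    unfold Par.failf
    push_cast
    apply Finset.sum_le_sum_of_subset_of_nonneg
    · intro i hi
      rw [hS, Finset.mem_filter] at hi
      exact Finset.mem_filter.2 ⟨hi.1, hi.2.1⟩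
    · intro i _ _
      positivity
  have h3 := div_le_div_of_nonneg_right e3 hR.le
  have h4 := div_le_div_of_nonneg_right e4' hq.le
  have hc : (p.lostf t (p.cho om t) : ℝ) = (S.card : ℝ) := rfl
  rw [hc]
  linarith

end KDB.I.L4
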